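import Pool.Agent.helper58.ZB.SpecN

/-!
# Project ZB (MP_baa4d7_al), row LXE: `a E = E`
-/

set_option autoImplicit false

namespace Pool.Agent.GB

open Pool.Agent.helper58.DC Pool.Agent.DI Pool.Agent.GR Pool.Agent.OB Pool.Agent.DR Pool.Agent.FI Pool.Agent.FI3 Pool.Agent.FI4 Pool.Agent.LE Pool.Agent.BR

open Classical in
theorem LXE_EE {G : Type} [Group G] [Fintype G] (p : ℕ) (ψ ψ' : G → ℂ) :
    EE p (⊤ : Subgroup G) ψ ψ' = (∑ g : G, if PReg p g then ψ g * ψ' g⁻¹ else 0) / Nat.card G := by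
  unfold EE
  congr 1
  · rw [finsum_mem_def, finsum_eq_sum_of_fintype]
    refine Finset.sum_congr rfl fun g _ => ?_
    by_cases h : PReg p g
    · rw [if_pos h, Set.indicator_of_mem]
      exact ⟨Subgroup.mem_top g, h⟩
    · rw [if_neg h, Set.indicator_of_notMem]
      exact fun h' => h h'.2
  · rw [Subgroup.card_top]

theorem LXE_reg {G : Type} [Group G] (p : ℕ) (h x : G) : PReg p (h * x * h⁻¹) ↔ PReg p x := by
  unfold PReg
  have h1 : orderOf (h * x * h⁻¹) = orderOf x := (MulAut.conj h).orderOf_eq x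
  rw [h1]

theorem LXE (hQEI : QEI_stmt) (hEXP : EXP_stmt) (hB2 : B2_stmt) : LXE_stmt := by
  intro p M hS G _ _ S hBC q hq ψ' hψ' ψ'' hψ''
  classical
  have := Fintype.ofFinite G
  have hfin : S.Finite := (hB2 G ⊤).1.subset hBC.sub
  have hc : (Nat.card G : ℂ) ≠ 0 := by exact_mod_cast Nat.card_pos.ne'
  obtain ⟨-, hQ2, -, -⟩ := hQEI p M hS G ⊤ S hBC
  have hcl : ∀ ψ ∈ S, ∀ h x : G, ψ (h * x * h⁻¹) = ψ x := fun ψ hψ h x => ((hB2 G ⊤).2 ψ (hBC.sub hψ)).2.1 x h (Subgroup.mem_top h)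
  -- the expansion
  have hexp : (fun g : G => (if PReg p g then ψ'' g⁻¹ else 0) - ∑ ψ ∈ hfin.toFinset, EE p (⊤ : Subgroup G) ψ ψ'' * ψ g⁻¹) = 0 := by
    refine hEXP G ⊤ _ ⟨?_, fun x hx => absurd (Subgroup.mem_top x) hx⟩ ?_
    · intro h _ x
      have e1 : (h * x * h⁻¹)⁻¹ = h * x⁻¹ * h⁻¹ := by group
      simp only [e1, LXE_reg, hcl ψ'' hψ'']
      congr 1
      refine Finset.sum_congr rfl fun ψ hψ => ?_
      rw [hcl ψ (hfin.mem_toFinset.1 hψ)]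
    · intro φ hφ
      unfold cc
      rw [finsum_eq_sum_of_fintype]
      have e2 : ∑ x : G, ((if PReg p x then ψ'' x⁻¹ else 0) - ∑ ψ ∈ hfin.toFinset, EE p (⊤ : Subgroup G) ψ ψ'' * ψ x⁻¹) * φ x =
          Nat.card G * EE p (⊤ : Subgroup G) φ ψ'' - ∑ ψ ∈ hfin.toFinset, EE p (⊤ : Subgroup G) ψ ψ'' * ∑ x : G, φ x * ψ x⁻¹ := by
        rw [LXE_EE, mul_div_cancel₀ _ hc]
        have e3 : ∑ ψ ∈ hfin.toFinset, EE p (⊤ : Subgroup G) ψ ψ'' * ∑ x : G, φ x * ψ x⁻¹ =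
            ∑ x : G, ∑ ψ ∈ hfin.toFinset, EE p (⊤ : Subgroup G) ψ ψ'' * (φ x * ψ x⁻¹) := by
          simp only [Finset.mul_sum]
          exact Finset.sum_comm
        rw [e3, ← Finset.sum_sub_distrib]
        refine Finset.sum_congr rfl fun x _ => ?_
        rw [sub_mul, Finset.sum_mul]
        congr 1
        · by_cases h : PReg p x
          · rw [if_pos h, if_pos h, mul_comm]
          · rw [if_neg h, if_neg h, zero_mul]
        · refine Finset.sum_congr rfl fun ψ _ => ?_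
          ring
      have e4 : ∀ ψ ∈ hfin.toFinset, EE p (⊤ : Subgroup G) ψ ψ'' * ∑ x : G, φ x * ψ x⁻¹ =
          if φ = ψ then EE p (⊤ : Subgroup G) ψ ψ'' * (Nat.card G : ℂ) else 0 := by
        intro ψ hψ
        have h5 := ((hB2 G ⊤).2 φ hφ).2.2.2.2 ψ (hBC.sub (hfin.mem_toFinset.1 hψ))
        rw [finsum_eq_sum_of_fintype] at h5
        rw [h5]
        by_cases h : φ = ψ
        · rw [if_pos h, if_pos h, Subgroup.card_top]
        · rw [if_neg h, if_neg h, mul_zero]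
      have e5 : ∑ x : G, ((if PReg p x then ψ'' x⁻¹ else 0) - ∑ ψ ∈ hfin.toFinset, EE p (⊤ : Subgroup G) ψ ψ'' * ψ x⁻¹) * φ x = 0 := by
        rw [e2, Finset.sum_congr rfl e4]
        by_cases hφS : φ ∈ S
        · rw [Finset.sum_ite_eq, if_pos (hfin.mem_toFinset.2 hφS)]
          ring
        · rw [Finset.sum_ite_eq, if_neg (fun h => hφS (hfin.mem_toFinset.1 h)), (hQ2 ψ'' hψ'' φ hφ hφS).2]
          ring
      rw [e5, zero_div]
  have hexp' : ∀ g : G, ∑ ψ ∈ hfin.toFinset, EE p (⊤ : Subgroup G) ψ ψ'' * ψ g⁻¹ = if PReg p g then ψ'' g⁻¹ else 0 := by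
    intro g
    have h1 := congrFun hexp g
    exact (sub_eq_zero.1 h1).symm
  rw [finsum_mem_eq_finite_toFinset_sum _ hfin, LXE_EE p ψ' ψ'']
  have e6 : ∑ ψ ∈ hfin.toFinset, ((∑ᶠ g : G, ψ' (g ^ q) * ψ g⁻¹) / Nat.card G) * EE p (⊤ : Subgroup G) ψ ψ'' =
      (∑ g : G, ψ' (g ^ q) * ∑ ψ ∈ hfin.toFinset, EE p (⊤ : Subgroup G) ψ ψ'' * ψ g⁻¹) / Nat.card G := by
    have e7 : ∀ ψ : G → ℂ, ((∑ᶠ g : G, ψ' (g ^ q) * ψ g⁻¹) / Nat.card G) * EE p (⊤ : Subgroup G) ψ ψ'' =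
        ∑ g : G, ψ' (g ^ q) * (EE p (⊤ : Subgroup G) ψ ψ'' * ψ g⁻¹) / Nat.card G := by
      intro ψ
      rw [finsum_eq_sum_of_fintype, div_mul_eq_mul_div, Finset.sum_mul, Finset.sum_div]
      refine Finset.sum_congr rfl fun g _ => ?_
      ring
    simp only [e7]
    rw [Finset.sum_comm, Finset.sum_div]
    refine Finset.sum_congr rfl fun g _ => ?_
    rw [Finset.mul_sum, Finset.sum_div]
  rw [e6]
  congr 1
  refine Finset.sum_congr rfl fun g _ => ?_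
  rw [hexp']
  by_cases h : PReg p g
  · rw [if_pos h, if_pos h, hq g h]
  · rw [if_neg h, if_neg h, mul_zero]

end Pool.Agent.GB
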