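import Pool.Agent.helper59.ZB.SpecH

/-!
# Project ZB (MP_baa4d7_al), row HHTT (after HHT, helper5): the character `ψ₀`
-/

set_option autoImplicit false

namespace Pool.Agent.GB

open Pool.Agent.helper58.DC Pool.Agent.DI Pool.Agent.GR Pool.Agent.OB Pool.Agent.DR Pool.Agent.FI Pool.Agent.FI3 Pool.Agent.FI4 Pool.Agent.LE Pool.Agent.BR

theorem HHTT_one {p n m : ℕ} (hp : p.Prime) (hn : n ≠ 0) (hm : GmB p n m) : ∃ N : ℕ, m ^ p ^ N ≡ 1 [MOD n] := by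
  obtain ⟨a, n', hn', rfl⟩ : ∃ a n', ¬ p ∣ n' ∧ n = p ^ a * n' := Nat.exists_eq_pow_mul_and_not_dvd hn p hp.ne_one
  have h1 : m ≡ 1 [MOD n'] := hm.reg n' (Dvd.intro_left _ rfl) hn'
  have hcop : (p ^ a).Coprime n' := Nat.Coprime.pow_left a ((Nat.Prime.coprime_iff_not_dvd hp).2 hn')
  refine ⟨a, ?_⟩
  have h2 : m ^ p ^ a ≡ 1 [MOD n'] := by
    have := h1.pow (p ^ a)
    rwa [one_pow] at this
  have h3 : m ^ p ^ a ≡ 1 [MOD p ^ a] := by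
    rcases Nat.eq_zero_or_pos a with h0 | h0
    · subst h0
      exact Nat.modEq_one
    · have h4 : m ≡ 1 [MOD p] := hm.one (dvd_mul_of_dvd_left (dvd_pow_self p h0.ne') _)
      have h5 : (p : ℤ) ∣ (m : ℤ) - 1 := by
        have := Nat.modEq_iff_dvd.1 h4.symm
        exact_mod_cast this
      have h6 := dvd_sub_pow_of_dvd_sub (R := ℤ) (p := p) (a := (m : ℤ)) (b := 1) h5 a
      rw [one_pow] at h6
      refine (Nat.modEq_iff_dvd.2 ?_).symm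
      push_cast
      exact dvd_trans (pow_dvd_pow _ (Nat.le_succ a)) h6
  exact (Nat.modEq_and_modEq_iff_modEq_mul hcop).1 ⟨h3, h2⟩

theorem HHTT_reg {p m : ℕ} {G : Type} [Group G] [Finite G] (hm : GmB p (Nat.card G) m) {x : G} (hx : PReg p x) :
    x ^ m = x := by
  have h1 := hm.reg (orderOf x) (orderOf_dvd_natCard x) hx
  have h2 := pow_eq_pow_iff_modEq.2 h1
  rwa [pow_one] at h2

theorem HHTT_cc {p m : ℕ} {G : Type} [Group G] [Finite G] (hm : GmB p (Nat.card G) m) (e ψ : G → ℂ)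
    (he : ∀ x, ¬ PReg p x → e x = 0) : cc (fun g => ψ (g ^ m)) e = cc ψ e := by
  unfold cc
  show (∑ᶠ x, e x * ψ (x ^ m)) / ψ (1 ^ m) = (∑ᶠ x, e x * ψ x) / ψ 1
  rw [one_pow]
  congr 1
  refine finsum_congr fun x => ?_
  by_cases hx : PReg p x
  · show e x * ψ (x ^ m) = e x * ψ x
    rw [HHTT_reg hm hx]
  · rw [he x hx, zero_mul, zero_mul]

theorem HHTT_mem (hBLE : BLE_stmt) (hZT4 : ZT4_stmt) {p m : ℕ} {M : Ideal (integralClosure ℤ ℂ)} (hS : Setup p M)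
    {G : Type} [Group G] [Finite G] (hm : GmB p (Nat.card G) m) (θ ψ : G → ℂ)
    (hψ : ψ ∈ Bl M (⊤ : Subgroup G) θ) : (fun g => ψ (g ^ m)) ∈ Bl M (⊤ : Subgroup G) θ := by
  obtain ⟨-, -, -, -, h1, h2, h3, h4⟩ := hBLE p M hS G ⊤ ⊤ le_rfl θ
  rw [h4] at h1 h2 h3
  by_contra hc
  have h5 := h2 _ (hZT4 G m hm.cop ⊤ ψ hψ.1) hc
  rw [HHTT_cc hm _ ψ h3, h1 ψ hψ] at h5
  exact one_ne_zero h5

theorem HHTT_sum {m : ℕ} {G : Type} [Group G] [Finite G] (hcop : m.Coprime (Nat.card G)) (H : Subgroup G) (F : G → ℂ) :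
    ∑ᶠ x ∈ (H : Set G), F (x ^ m) = ∑ᶠ x ∈ (H : Set G), F x := by
  classical
  rw [finsum_mem_def, finsum_mem_def, ← finsum_comp_equiv (powCoprime hcop.symm) (f := fun x => (H : Set G).indicator F x)]
  refine finsum_congr fun x => ?_
  have hiff : x ∈ H ↔ x ^ m ∈ H := by
    refine ⟨fun h => H.pow_mem h m, fun h => ?_⟩
    have h1 : (powCoprime hcop.symm).symm (powCoprime hcop.symm x) = x := (powCoprime hcop.symm).symm_apply_apply x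
    rw [← h1]
    exact H.zpow_mem h _
  show (H : Set G).indicator (fun x => F (x ^ m)) x = (H : Set G).indicator F (x ^ m)
  by_cases hx : x ∈ H
  · rw [Set.indicator_of_mem (show x ∈ (H : Set G) from hx), Set.indicator_of_mem (show x ^ m ∈ (H : Set G) from hiff.1 hx)]
  · rw [Set.indicator_of_notMem (show x ∉ (H : Set G) from hx), Set.indicator_of_notMem (show x ^ m ∉ (H : Set G) from fun h => hx (hiff.2 h))]

theorem HHTT_mz {m : ℕ} {G : Type} [Group G] [Finite G] (hcop : m.Coprime (Nat.card G)) (D : Subgroup G)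
    (ψ θ₁ : G → ℂ) (hPR : PR m θ₁) : mzT D θ₁ (fun g => ψ (g ^ m)) = mzT D θ₁ ψ := by
  unfold mzT
  congr 1
  have h1 : ∑ᶠ c ∈ (cz D : Set G), (∑ᶠ d ∈ (D : Set G), ψ ((d * c) ^ m)) * θ₁ c⁻¹ =
      ∑ᶠ c ∈ (cz D : Set G), (fun c' => (∑ᶠ d ∈ (D : Set G), ψ (d * c')) * θ₁ c'⁻¹) (c ^ m) := by
    refine finsum_mem_congr rfl fun c hc => ?_
    have h2 : ∑ᶠ d ∈ (D : Set G), ψ ((d * c) ^ m) = ∑ᶠ d ∈ (D : Set G), (fun d' => ψ (d' * c ^ m)) (d ^ m) := by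
      refine finsum_mem_congr rfl fun d hd => ?_
      have h3 : Commute d c := Subgroup.mem_centralizer_iff.1 hc d hd
      rw [h3.mul_pow]
    rw [h2, HHTT_sum hcop D (fun d' => ψ (d' * c ^ m))]
    show (∑ᶠ d ∈ (D : Set G), ψ (d * c ^ m)) * θ₁ c⁻¹ = (∑ᶠ d ∈ (D : Set G), ψ (d * c ^ m)) * θ₁ (c ^ m)⁻¹
    rw [← inv_pow, hPR]
  rw [h1]
  exact HHTT_sum hcop (cz D) (fun c' => (∑ᶠ d ∈ (D : Set G), ψ (d * c')) * θ₁ c'⁻¹)

theorem HHTT_Cz {G : Type} [Group G] : Cz (⊤ : Subgroup G) 1 = ⊤ := by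
  ext x
  unfold Cz
  simp

theorem HHTT (hHCNT : HCNT_stmt) (hHCMT : HCMT_stmt) (hHSMT : HSMT_stmt) (hHMZT : HMZT_stmt) (hHFX : HFX_stmt) (hHAIT : HAIT_stmt)
    (hBLE : BLE_stmt) (hZT4 : ZT4_stmt) (hB2 : B2_stmt) : HHTT_stmt := by
  classical
  intro p M hS G _ _ D x θ χ h m hm
  obtain ⟨θ₁, hθ₁, hθ1⟩ := hHCNT p M hS G D x θ χ h
  have hPR := hHCMT p M hS G D x θ χ h θ₁ hθ₁ hθ1 m hm
  have hSM := hHSMT p M hS G D x θ χ h θ₁ hθ₁ hθ1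
  have hfin : (Bl M (⊤ : Subgroup G) θ).Finite := (hB2 G ⊤).1.subset fun ψ hψ => hψ.1
  have hfB : Finite ↥(Bl M (⊤ : Subgroup G) θ) := hfin.to_subtype
  let _ : Fintype ↥(Bl M (⊤ : Subgroup G) θ) := Fintype.ofFinite _
  have hinj : Function.Injective (fun ψ : ↥(Bl M (⊤ : Subgroup G) θ) =>
      (⟨fun g => (ψ : G → ℂ) (g ^ m), HHTT_mem hBLE hZT4 hS hm θ ψ ψ.2⟩ : ↥(Bl M (⊤ : Subgroup G) θ))) := by
    intro ψ φ hψφ
    have h2 : (fun g => (ψ : G → ℂ) (g ^ m)) = fun g => (φ : G → ℂ) (g ^ m) := congrArg Subtype.val hψφ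
    refine Subtype.ext (funext fun g => ?_)
    obtain ⟨g', hg'⟩ := (powCoprime hm.cop.symm).surjective g
    have h3 : g' ^ m = g := hg'
    have h4 := congrFun h2 g'
    simp only [h3] at h4
    exact h4
  obtain ⟨f, hf⟩ : ∃ f : Equiv.Perm ↥(Bl M (⊤ : Subgroup G) θ), ∀ ψ : ↥(Bl M (⊤ : Subgroup G) θ), ∀ g : G,
      ((f ψ : ↥(Bl M (⊤ : Subgroup G) θ)) : G → ℂ) g = (ψ : G → ℂ) (g ^ m) :=
    ⟨Equiv.ofBijective _ (Finite.injective_iff_bijective.1 hinj), fun ψ g => rfl⟩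
  have hfk : ∀ (k : ℕ) (ψ : ↥(Bl M (⊤ : Subgroup G) θ)) (g : G),
      (((f ^ k) ψ : ↥(Bl M (⊤ : Subgroup G) θ)) : G → ℂ) g = (ψ : G → ℂ) (g ^ m ^ k) := by
    intro k
    induction k with
    | zero => intro ψ g; rw [pow_zero, pow_zero, pow_one]; rfl
    | succ k ih =>
      intro ψ g
      rw [pow_succ, Equiv.Perm.mul_apply, ih, hf, ← pow_mul, ← pow_succ]
  obtain ⟨N, hN⟩ := HHTT_one hS.pr Nat.card_pos.ne' hm
  have hfN : f ^ p ^ N = 1 := by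
    refine Equiv.ext fun ψ => Subtype.ext (funext fun g => ?_)
    rw [hfk]
    have h1 : g ^ m ^ p ^ N = g ^ 1 := pow_eq_pow_iff_modEq.2 (hN.of_dvd (orderOf_dvd_natCard g))
    rw [h1, pow_one]
    rfl
  have hAI : ∀ ψ ∈ Bl M (⊤ : Subgroup G) θ, IntAt M ((Nat.card D : ℂ) * ψ 1 / Nat.card G) := by
    intro ψ hψ
    have h1 := hHAIT p M hS G D x θ χ h 1 D.one_mem (cz D).one_mem ψ (by rw [HHTT_Cz]; exact hψ)
    rw [HHTT_Cz, Subgroup.card_top] at h1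
    exact h1
  have hmt : ∀ ψ ∈ Bl M (⊤ : Subgroup G) θ, IntAt M (mzT D θ₁ ψ) := by
    intro ψ hψ
    obtain ⟨n, hn⟩ := hHMZT G D θ₁ hθ₁.1 ψ hψ.1
    rw [hn]
    exact IntAt.natCast hS n
  have hX := hHFX p M hS ↥(Bl M (⊤ : Subgroup G) θ) f N hfN
    (fun ψ => mzT D θ₁ ψ * ((Nat.card D : ℂ) * (ψ : G → ℂ) 1 / Nat.card G))
    (fun ψ => (hmt ψ ψ.2).mul hS (hAI ψ ψ.2))
    (by
      intro ψ
      show mzT D θ₁ (f ψ) * ((Nat.card D : ℂ) * ((f ψ : ↥(Bl M (⊤ : Subgroup G) θ)) : G → ℂ) 1 / Nat.card G) =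
        mzT D θ₁ ψ * ((Nat.card D : ℂ) * (ψ : G → ℂ) 1 / Nat.card G)
      have h1 : ((f ψ : ↥(Bl M (⊤ : Subgroup G) θ)) : G → ℂ) = fun g => (ψ : G → ℂ) (g ^ m) := funext (hf ψ)
      rw [h1, HHTT_mz hm.cop D ψ θ₁ hPR]
      show mzT D θ₁ ψ * ((Nat.card D : ℂ) * (ψ : G → ℂ) (1 ^ m) / Nat.card G) =
        mzT D θ₁ ψ * ((Nat.card D : ℂ) * (ψ : G → ℂ) 1 / Nat.card G)
      rw [one_pow])
  have hsum : ∑ ψ : ↥(Bl M (⊤ : Subgroup G) θ), mzT D θ₁ ψ * ((Nat.card D : ℂ) * (ψ : G → ℂ) 1 / Nat.card G) =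
      ∑ᶠ ψ ∈ Bl M (⊤ : Subgroup G) θ, mzT D θ₁ ψ * ((Nat.card D : ℂ) * ψ 1 / Nat.card G) := by
    rw [← finsum_eq_sum_of_fintype]
    exact finsum_set_coe_eq_finsum_mem (f := fun ψ : G → ℂ => mzT D θ₁ ψ * ((Nat.card D : ℂ) * ψ 1 / Nat.card G)) _
  rw [← hsum] at hSM
  by_contra hcon
  push Not at hcon
  apply hSM
  have hfix : InM M (∑ᶠ b ∈ {b | f b = b}, mzT D θ₁ (b : G → ℂ) * ((Nat.card D : ℂ) * (b : G → ℂ) 1 / Nat.card G)) := by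
    refine InM.finsum_mem hS fun b hb => ?_
    refine InM.mul_left hS (hmt b b.2) (hcon b b.2 fun g => ?_)
    have hb' : f b = b := hb
    have h1 := hf b g
    rw [hb'] at h1
    exact h1.symm
  have h1 := hX.add hS hfix
  rwa [sub_add_cancel] at h1

end Pool.Agent.GB
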